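import Pool.Agent.H46.HN.Lef
import Pool.Agent.H83.HN.Iface

/-!
# A component of the fixed point scheme along which the orbit directions are isotropic

`FixData`: the connected components of the fixed point scheme of one automorphism `g0 <> 1` of the
parabolic group.  `FixData.conclusion`: since the Lefschetz number `n + 1` of `g0` on `H^*(Y, O)` is
not zero, there is a component on which the symplectic form is `0` on the Lie algebra of the closure
of the group; `Q` is the existence of the arithmetic data around a point of such a component.
-/

namespace Pool.Agent.H46.HN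

open Pool.Agent.H83.HN (Manifold)
open scoped BigOperators

variable {n : ℕ} {Lam : Type} [AddCommGroup Lam] {q : Lam → Lam → ℤ}

/-- FIXED POINTS of an automorphism `rho g0` in a commutative group of automorphisms `rho` of the
manifold `M` which fix the symplectic form; `A` is an ample class. `Q` is a statement which holds if
the symplectic form vanishes on the Lie algebra `LefComp.L` attached to one of the components. -/
structure FixData (M : Manifold n Lam q) {r : ℕ} (rho : (Fin r → ℤ) → M.Aut) (g0 : Fin r → ℤ)
    (A : Lam) (Q : Prop) where
  /-- the connected components of the fixed point scheme of `g0`. -/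
  I : Type
  [fin : Fintype I]
  /-- the degrees on the curves contained in a component. -/
  curves : I → Set (Lam →+ ℤ)
  curve_nef : ∀ i, ∀ δ ∈ curves i, ∀ x ∈ M.Nef, 0 ≤ δ x
  curve_fix : ∀ i, ∀ δ ∈ curves i, ∀ x ∈ M.NS, δ (M.pull (rho g0) x) = δ x
  /-- HOLOMORPHIC LEFSCHETZ FORMULA: the trace of `g0` on `H^*(Y, O)` is `n + 1`, it is the sum of
  the local terms. -/
  term : I → ℂ
  lefschetz : ∑ i, term i = (n : ℂ) + 1
  /-- if the numerical class of `A` on the component `F` is invariant under the group, then a
  subgroup of finite index which preserves `F` acts on every infinitesimal neighbourhood of `F`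
  through an algebraic group; the space `L` of `LefComp` is the Lie algebra of the Zariski closure
  (of this subgroup and `g0`) in the automorphism group of the completion along `F`, a commutative
  group which fixes the symplectic form.  If the symplectic form vanishes on `L`, then it vanishes on
  the vector fields defined by the interpolated action of the group on a residue disc which meets
  `F` (their values at a point of `F` are the logarithms of the elements of the group, elements of
  `L` tensor `Q_p`, and the values of the form on them are constant on the disc). -/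
  comp : ∀ i, (∀ δ ∈ curves i, ∀ k : Fin r → ℤ, δ (M.pull (rho k) A) = δ A) →
    ∃ c : LefComp, c.term = term i ∧ ((∀ x y, c.s x y = 0) → Q)

attribute [instance] FixData.fin

/-- A homomorphism from `ℤ` bounded below is zero. -/
theorem eq_zero_of_bounded {c d : ℤ} (h : ∀ t : ℤ, 0 ≤ c + t * d) : d = 0 := by
  by_contra hd
  rcases lt_or_gt_of_ne hd with hd | hd
  · have := h (|c| + 1)
    have h1 : c ≤ |c| := le_abs_self c
    nlinarith [abs_nonneg c]
  · have := h (-(|c| + 1))
    have h1 : c ≤ |c| := le_abs_self c
    nlinarith [abs_nonneg c]

/-- THE ISOTROPIC COMPONENT. -/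
theorem FixData.conclusion {M : Manifold n Lam q} {r : ℕ} {rho : (Fin r → ℤ) → M.Aut} {L A : Lam}
    (b : (Fin r → ℤ) →+ Lam) (b_NS : ∀ k, b k ∈ M.NS) (b_L : ∀ k, q (b k) L = 0)
    (b_A : ∀ k, q (b k) A = 0) (b_neg : ∀ k, k ≠ 0 → q (b k) (b k) < 0)
    (pull_eq : ∀ k x, M.pull (rho k) x =
      x + (2 * q L x) • b k - (2 * q (b k) x + 2 * q (b k) (b k) * q L x) • L)
    (symm : ∀ x y, q x y = q y x) (hA : A ∈ M.Ample)
    {g0 : Fin r → ℤ} (hg0 : g0 ≠ 0) {Q : Prop} (D : FixData M rho g0 A Q) : Q := by
  classical
  -- the degrees on the curves in a component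
  have hdeg : ∀ i, ∀ δ ∈ D.curves i, ∀ k : Fin r → ℤ, δ (M.pull (rho k) A) = δ A := by
    intro i δ hδ k
    have hb0 := b_neg g0 hg0
    have e1 := D.curve_fix i δ hδ (b g0) (b_NS g0)
    rw [pull_eq, symm L (b g0), b_L g0] at e1
    simp only [mul_zero, zero_smul, add_zero, map_sub, map_zsmul, smul_eq_mul] at e1
    have hL0 : δ L = 0 := by
      have : 2 * q (b g0) (b g0) * δ L = 0 := by linarith
      rcases mul_eq_zero.1 this with h | h
      · exfalso; omega
      · exact h
    have hpull : ∀ k : Fin r → ℤ, δ (M.pull (rho k) A) = δ A + 2 * q L A * δ (b k) := by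
      intro k
      rw [pull_eq, b_A k]
      simp only [map_sub, map_add, map_zsmul, smul_eq_mul, hL0, mul_zero, sub_zero]
    have hbk : 2 * q L A * δ (b k) = 0 := by
      refine eq_zero_of_bounded (c := δ A) fun t => ?_
      have h1 := D.curve_nef i δ hδ _ (M.ample_nef (M.pull_ample (rho (t • k)) A hA))
      rw [hpull, map_zsmul, map_zsmul, smul_eq_mul] at h1
      nlinarith [h1]
    rw [hpull, hbk, add_zero]
  choose c hc using fun i => D.comp i fun δ hδ k => hdeg i δ hδ k
  have hsum : ∑ i, (c i).term ≠ 0 := by
    rw [Finset.sum_congr rfl fun i _ => (hc i).1, D.lefschetz]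
    exact Nat.cast_add_one_ne_zero n
  obtain ⟨i, hi⟩ := exists_isotropic c hsum
  exact (hc i).2 hi

end Pool.Agent.H46.HN
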