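import Mathlib

/-!
# The local Lefschetz term of a fixed component on which the symplectic form is not isotropic

`Y` is a smooth projective variety of dimension `d` with a holomorphic symplectic form `sigma`, `g0`
an automorphism which preserves `sigma`, `F` a connected component of the fixed point scheme of
`g0`, `Y^` the formal completion of `Y` along `F`, `PP` the formal completion of `Y x Y` along the
diagonal of `F`.  THEOREM (`LefComp.term_eq_zero`): if two commuting formal vector fields `xi`, `eta`
on `Y^`, which commute with `g0` and preserve `sigma`, have `sigma(xi, eta) = constant <> 0`, then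
the local term of `F` in the holomorphic Lefschetz formula of `g0` is `0`.
-/

namespace Pool.Agent.H46.HN

open scoped BigOperators

/-- ONE CONNECTED COMPONENT `F` OF THE FIXED POINT SCHEME OF AN AUTOMORPHISM `g0` of a smooth
projective variety `Y` (over the complex numbers) with a symplectic form `sigma`, together with a
commutative algebra of vector fields. -/
structure LefComp where
  /-- a space of formal vector fields on `Y^`: they commute with each other and with `g0`, and
  preserve `sigma` (the Lie algebra of the Zariski closure of a commutative group of automorphisms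
  containing `g0` in the automorphism group of `Y^`). -/
  L : Type
  /-- `sigma(xi, eta)`: a constant, since `d (sigma(xi, eta)) = 0` (CARTAN: the form
  `i_xi sigma` is closed, and `L_eta (i_xi sigma) = i_[eta,xi] sigma = 0`). -/
  s : L → L → ℂ
  /-- the functions on `PP`, on `Y^`; inverse image of functions under
  `(g0, id) : Y^ --> PP` (defined since `g0` is the identity on `F`). -/
  A : Type
  [ringA : CommRing A]
  [algA : Algebra ℂ A]
  B : Type
  [ringB : CommRing B]
  gam : A →+* B
  /-- `1`-forms on `PP` and on `Y^`, the differentials, inverse images of forms on `Y^` under the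
  two projections of `PP`, inverse image under `(g0, id)` and under `g0`. -/
  OmA : Type
  [grpOmA : AddCommGroup OmA]
  OmB : Type
  [grpOmB : AddCommGroup OmB]
  dA : A → OmA
  dB : B → OmB
  closed : Set OmB
  p1 : OmB →+ OmA
  p2 : OmB →+ OmA
  gamO : OmA →+ OmB
  gO : OmB →+ OmB
  gamO_d : ∀ a, gamO (dA a) = dB (gam a)
  gamO_p1 : ∀ w, gamO (p1 w) = gO w
  gamO_p2 : ∀ w, gamO (p2 w) = w
  /-- the ideal of the diagonal of `PP`, the ideal of `F` in `Y^`. -/
  IDel : Ideal A
  IF : Ideal B
  /-- `g0` is the identity on `F`. -/
  gam_IDel : ∀ a ∈ IDel, gam a ∈ IF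
  /-- FORMAL POINCARE LEMMA along the diagonal: the closed form `pr_2^* w - pr_1^* w` vanishes on
  the diagonal, so it is the differential of a function which vanishes on the diagonal. -/
  poincare : ∀ w ∈ closed, ∃ a ∈ IDel, dA a = p2 w - p1 w
  /-- a function on the connected smooth formal scheme `Y^` with differential `0` is constant. -/
  const : ∀ b ∈ IF, dB b = 0 → b = 0
  /-- the form `i_xi sigma`: closed, invariant under `g0`. -/
  con : L → OmB
  con_closed : ∀ x, con x ∈ closed
  con_inv : ∀ x, gO (con x) = con x
  /-- contraction of a form on `PP` with the vector field `0 + eta` (on the second factor), the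
  derivation defined by this field. -/
  ev : L → OmA →+ A
  der : L → A → A
  ev_d : ∀ y a, ev y (dA a) = der y a
  ev_p1 : ∀ y w, ev y (p1 w) = 0
  ev_con : ∀ x y, ev y (p2 (con x)) = algebraMap ℂ A (s x y)
  /-- `H`: the cohomology group with support in the diagonal `H^d_Delta(PP, pr_2^* Omega^d)`, equal
  to the global sections of the local cohomology sheaf; `del`: the class of the diagonal, given by
  the generalised fraction `dx'_1 .. dx'_d / (x'_1 - x_1, .., x'_d - x_d)`, annihilated by the ideal
  of the diagonal; `H'`: the cohomology group with support `H^d_F(Y, Omega^d)`, `gamH` the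
  inverse image under `(g0, id)` (`F` is open and closed in the inverse image of the diagonal). -/
  H : Type
  [grpH : AddCommGroup H]
  [modH : Module A H]
  H' : Type
  [grpH' : AddCommGroup H']
  [modH' : Module B H']
  gamH : H →+ H'
  gamH_smul : ∀ a u, gamH (a • u) = gam a • gamH u
  del : H
  del_ann : ∀ a ∈ IDel, a • del = 0
  /-- the LIE DERIVATIVE on `H` along the field `0 + eta` (LEIBNIZ). -/
  lie : L → H →+ H
  lie_smul : ∀ y a u, lie y (a • u) = der y a • u + a • lie y u
  /-- the trace (residue) map `H^d_F(Y, Omega^d) --> C`. -/
  tr : H' →+ ℂ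

attribute [instance] LefComp.ringA LefComp.algA LefComp.ringB LefComp.grpOmA LefComp.grpOmB
  LefComp.grpH LefComp.modH LefComp.grpH' LefComp.modH'

namespace LefComp

/-- the LOCAL TERM of `F` in the holomorphic Lefschetz formula of `g0` for the structure sheaf
(Grothendieck, SGA 5 III; Toledo and Tong): the trace of the inverse image of the class of the
diagonal. -/
def term (c : LefComp) : ℂ := c.tr (c.gamH c.del)

/-- the restriction of the class of the diagonal to the graph is `0` near `F`. -/
theorem class_eq_zero (c : LefComp) {x y : c.L} (h : c.s x y ≠ 0) : c.gamH c.del = 0 := by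
  obtain ⟨a, ha, hda⟩ := c.poincare _ (c.con_closed x)
  -- the inverse image of `a` under `(g0, id)` vanishes
  have hpsi : c.gam a = 0 := by
    apply c.const _ (c.gam_IDel a ha)
    rw [← c.gamO_d, hda, map_sub, c.gamO_p1, c.gamO_p2, c.con_inv, sub_self]
  -- the derivative of `a` in the second variable is the constant `s x y`
  have hder : c.der y a = algebraMap ℂ c.A (c.s x y) := by
    rw [← c.ev_d, hda, map_sub, c.ev_p1, c.ev_con, sub_zero]
  have hL : c.lie y (a • c.del) = 0 := by
    rw [c.del_ann a ha, map_zero]
  rw [c.lie_smul, hder] at hL
  have hdel : c.del = (algebraMap ℂ c.A (c.s x y)⁻¹) • (-(a • c.lie y c.del)) := by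
    have h1 : (algebraMap ℂ c.A (c.s x y)) • c.del = -(a • c.lie y c.del) :=
      eq_neg_of_add_eq_zero_left hL
    rw [← h1, smul_smul, ← map_mul, inv_mul_cancel₀ h, map_one, one_smul]
  rw [hdel, c.gamH_smul, map_neg, c.gamH_smul, hpsi, zero_smul, neg_zero, smul_zero]

/-- if `sigma` is not zero on the algebra of vector fields, the local term is zero. -/
theorem term_eq_zero (c : LefComp) {x y : c.L} (h : c.s x y ≠ 0) : c.term = 0 := by
  rw [term, c.class_eq_zero h, map_zero]

end LefComp

/-- If the sum of the local terms is not zero, `sigma` vanishes on the vector fields of one of the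
components. -/
theorem exists_isotropic {I : Type} [Fintype I] (c : I → LefComp)
    (h : ∑ i, (c i).term ≠ 0) : ∃ i, ∀ x y, (c i).s x y = 0 := by
  by_contra hc
  push Not at hc
  apply h
  apply Finset.sum_eq_zero
  intro i _
  obtain ⟨x, y, hxy⟩ := hc i
  exact (c i).term_eq_zero hxy

end Pool.Agent.H46.HN
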